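import Pool.Agent.helper54.UG.Spec2

set_option autoImplicit false

namespace Pool.Agent.UG

open Matrix Pool.Agent.H48SL

/-- the linear map `s ↦ f (ω u s) *ᵥ u` -/
noncomputable def KFS_L {n : ℕ} {K : Type} [Field K] [Algebra ℚ K] (f : K →ₐ[ℚ] MQ n)
    (ω : (Fin n → ℚ) →ₗ[ℚ] (Fin n → ℚ) →ₗ[ℚ] K) (u : Fin n → ℚ) : (Fin n → ℚ) →ₗ[ℚ] (Fin n → ℚ) where
  toFun s := f (ω u s) *ᵥ u
  map_add' s t := by rw [map_add, map_add, Matrix.add_mulVec]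
  map_smul' c s := by rw [map_smul, map_smul, Matrix.smul_mulVec]; rfl

theorem KFS_L_apply {n : ℕ} {K : Type} [Field K] [Algebra ℚ K] (f : K →ₐ[ℚ] MQ n)
    (ω : (Fin n → ℚ) →ₗ[ℚ] (Fin n → ℚ) →ₗ[ℚ] K) (u s : Fin n → ℚ) :
    KFS_L f ω u s = f (ω u s) *ᵥ u := rfl

theorem KFS_mv {n : ℕ} {K : Type} [Field K] [Algebra ℚ K] (f : K →ₐ[ℚ] MQ n)
    (ω : (Fin n → ℚ) →ₗ[ℚ] (Fin n → ℚ) →ₗ[ℚ] K) (u s : Fin n → ℚ) :
    LinearMap.toMatrix' (KFS_L f ω u) *ᵥ s = f (ω u s) *ᵥ u := by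
  rw [LinearMap.toMatrix'_mulVec, KFS_L_apply]

theorem KFS_sq {n : ℕ} {K : Type} [Field K] [Algebra ℚ K] (f : K →ₐ[ℚ] MQ n)
    (ω : (Fin n → ℚ) →ₗ[ℚ] (Fin n → ℚ) →ₗ[ℚ] K) (H : Subgroup (SLZ n)) (h : SHyp f ω H) (u : Fin n → ℚ) :
    LinearMap.toMatrix' (KFS_L f ω u) * LinearMap.toMatrix' (KFS_L f ω u) = 0 := by
  rw [← LinearMap.toMatrix'_comp]
  have h0 : (KFS_L f ω u).comp (KFS_L f ω u) = 0 := by
    apply LinearMap.ext
    intro s
    rw [LinearMap.comp_apply, KFS_L_apply, KFS_L_apply, h.lin, h.alt, mul_zero, map_zero,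
      Matrix.zero_mulVec]
    rfl
  rw [h0, map_zero]

theorem KFS_exp {n : ℕ} (X : MQ n) (h : X * X = 0) (c : ℚ) : IsNilpotent.exp (c • X) = 1 + c • X := by
  have h2 : (c • X) ^ 2 = 0 := by
    rw [pow_two, Matrix.smul_mul, Matrix.mul_smul, h, smul_zero, smul_zero]
  rw [IsNilpotent.exp_eq_sum h2, Finset.sum_range_succ, Finset.sum_range_succ, Finset.sum_range_zero]
  simp

theorem KFS_a (K : Type) [Field K] [Algebra ℚ K] [FiniteDimensional ℚ K]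
    (h : 2 ≤ Module.finrank ℚ K) : ∃ a : K, ∀ q : ℚ, a ≠ algebraMap ℚ K q := by
  by_contra hc
  push Not at hc
  have h1 : Module.finrank ℚ K ≤ 1 := by
    apply finrank_le_one (1 : K)
    intro w
    obtain ⟨q, hq⟩ := hc w
    exact ⟨q, by rw [hq, Algebra.smul_def, mul_one]⟩
  omega

theorem KFS_ne {n : ℕ} {K : Type} [Field K] [Algebra ℚ K] (f : K →ₐ[ℚ] MQ n)
    (ω : (Fin n → ℚ) →ₗ[ℚ] (Fin n → ℚ) →ₗ[ℚ] K) (H : Subgroup (SLZ n)) (h : SHyp f ω H) (a : K)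
    (ha : ∀ q : ℚ, a ≠ algebraMap ℚ K q) (u : Fin n → ℚ) (hu : u ≠ 0) :
    ∃ w : Fin n → ℚ, ω u w = a ∧ ∀ q : ℚ, f a *ᵥ u ≠ q • u := by
  obtain ⟨s, hs⟩ := h.nondeg u hu
  refine ⟨f (a * (ω u s)⁻¹) *ᵥ s, ?_, ?_⟩
  · rw [h.lin, mul_assoc, inv_mul_cancel₀ hs, mul_one]
  · intro q hq
    have h1 : f (a - algebraMap ℚ K q) *ᵥ u = 0 := by
      rw [map_sub, Matrix.sub_mulVec, hq, AlgHom.commutes, Algebra.algebraMap_eq_smul_one,
        Matrix.smul_mulVec, Matrix.one_mulVec, sub_self]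
    have h2 : a - algebraMap ℚ K q ≠ 0 := sub_ne_zero.2 (ha q)
    apply hu
    have h3 : f ((a - algebraMap ℚ K q)⁻¹) *ᵥ (f (a - algebraMap ℚ K q) *ᵥ u) = u := by
      rw [Matrix.mulVec_mulVec, ← map_mul, inv_mul_cancel₀ h2, map_one, Matrix.one_mulVec]
    rw [← h3, h1, Matrix.mulVec_zero]

/-- an entry of `f (ω u e)` as a linear functional of `u` -/
noncomputable def KFS_mu {n : ℕ} {K : Type} [Field K] [Algebra ℚ K] (f : K →ₐ[ℚ] MQ n)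
    (ω : (Fin n → ℚ) →ₗ[ℚ] (Fin n → ℚ) →ₗ[ℚ] K) (i l : Fin n) (e : Fin n → ℚ) :
    (Fin n → ℚ) →ₗ[ℚ] ℚ :=
  (Matrix.entryLinearMap ℚ ℚ i l) ∘ₗ f.toLinearMap ∘ₗ (ω.flip e)

theorem KFS_lin {n : ℕ} {K : Type} [Field K] [Algebra ℚ K] (f : K →ₐ[ℚ] MQ n)
    (ω : (Fin n → ℚ) →ₗ[ℚ] (Fin n → ℚ) →ₗ[ℚ] K) (i j l : Fin n) (u : Fin n → ℚ) :
    f (ω u (Pi.single j 1)) i l = ∑ m, f (ω (Pi.single m 1) (Pi.single j 1)) i l * u m := by
  have h := LinearMap.pi_apply_eq_sum_univ (KFS_mu f ω i l (Pi.single j 1)) u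
  have h2 : f (ω u (Pi.single j 1)) i l = KFS_mu f ω i l (Pi.single j 1) u := rfl
  rw [h2, h]
  apply Finset.sum_congr rfl
  intro m _
  have h3 : (fun k : Fin n => if m = k then (1 : ℚ) else 0) = Pi.single m 1 := by
    ext k
    by_cases hk : m = k
    · subst hk; simp
    · rw [Pi.single_eq_of_ne (Ne.symm hk), if_neg hk]
  rw [h3, smul_eq_mul, mul_comm]
  rfl

theorem KFS : KFS_stmt := by
  intro n K _ _ _ f ω H hK h
  refine ⟨fun u => LinearMap.toMatrix' (KFS_L f ω u), ?_, ?_, ?_, ?_, ?_⟩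
  · intro i j
    refine ⟨∑ l, (∑ m, MvPolynomial.C (f (ω (Pi.single m 1) (Pi.single j 1)) i l) * MvPolynomial.X m) *
      MvPolynomial.X l, ?_⟩
    intro u
    have h1 : ∀ l, f (ω u (Pi.single j 1)) i l =
        ∑ m, f (ω (Pi.single m 1) (Pi.single j 1)) i l * u m := by
      intro l
      exact KFS_lin f ω i j l u
    have h3 : LinearMap.toMatrix' (KFS_L f ω u) i j = (f (ω u (Pi.single j 1)) *ᵥ u) i := by
      rw [← KFS_mv]
      rw [Matrix.mulVec_single_one]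
      rfl
    rw [h3, map_sum]
    have h4 : (f (ω u (Pi.single j 1)) *ᵥ u) i = ∑ l, f (ω u (Pi.single j 1)) i l * u l := rfl
    rw [h4]
    apply Finset.sum_congr rfl
    intro l _
    rw [h1 l, map_mul, map_sum, MvPolynomial.eval_X]
    congr 1
    apply Finset.sum_congr rfl
    intro m _
    rw [map_mul, MvPolynomial.eval_C, MvPolynomial.eval_X]
  · intro u
    rw [KFS_mv, h.alt, map_zero, Matrix.zero_mulVec]
  · intro u
    exact ⟨2, by rw [pow_two]; exact KFS_sq f ω H h u⟩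
  · intro u
    obtain ⟨k, hk, g, hg, hs⟩ := h.mem u 1
    refine ⟨k, hk, g, hg, ?_⟩
    rw [KFS_exp _ (KFS_sq f ω H h u)]
    apply Matrix.toLin'.injective
    apply LinearMap.ext
    intro s
    rw [Matrix.toLin'_apply, Matrix.toLin'_apply, hs s, Matrix.add_mulVec, Matrix.one_mulVec,
      Matrix.smul_mulVec, KFS_mv, one_mul]
  · obtain ⟨a, ha⟩ := KFS_a K hK
    have hu0 : e0 n ≠ 0 := by
      intro h0
      have := congrFun h0 0
      unfold e0 at this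
      rw [Pi.single_eq_same] at this
      exact one_ne_zero this
    obtain ⟨w, hw, hq⟩ := KFS_ne f ω H h a ha (e0 n) hu0
    refine ⟨e0 n, w, ?_⟩
    by_contra hc
    push Not at hc
    apply hq ((f a *ᵥ e0 n) 0)
    ext j
    have h1 := hc 0 j
    rw [KFS_mv, hw] at h1
    have h2 : e0 n 0 = 1 := by unfold e0; rw [Pi.single_eq_same]
    rw [h2, one_mul] at h1
    rw [h1, Pi.smul_apply, smul_eq_mul, mul_comm]

end Pool.Agent.UG
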